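import Pool.Agent.helper70.BR.SpecR

set_option autoImplicit false

namespace Pool.Agent.BR

open Pool.Agent.helper58.DC Pool.Agent.DI Pool.Agent.GR Pool.Agent.OB Pool.Agent.DR Pool.Agent.FI Pool.Agent.FI3 Pool.Agent.FI4 Pool.Agent.LE

theorem EXA_comm {G : Type} [Group G] (s : Set G) (hs : ∀ x ∈ s, ∀ y ∈ s, x * y = y * x) :
    ∀ x ∈ Subgroup.closure s, ∀ y ∈ Subgroup.closure s, x * y = y * x := by
  intro x hx y hy
  have h1 : Subgroup.closure s ≤ Subgroup.centralizer s := by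
    rw [Subgroup.closure_le]
    intro z hz
    show z ∈ Subgroup.centralizer s
    rw [Subgroup.mem_centralizer_iff]
    intro h hh
    exact hs h hh z hz
  have h2 := Subgroup.closure_le_centralizer_centralizer s hx
  rw [Subgroup.mem_centralizer_iff] at h2
  exact (h2 y (h1 hy)).symm

theorem EXA (hQRS : QRS_stmt) (hQCE : QCE_stmt) (hB2 : B2_stmt) : EXA_stmt := by
  intro p M hS G _ _ R hR a ha ψ hψ F hF
  classical
  let S : Subgroup G := Subgroup.closure (insert a (R : Set G))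
  have hac : ∀ u ∈ R, u * a = a * u := fun u hu => (Subgroup.mem_centralizer_iff.1 ha) u hu
  have hSc : ∀ x ∈ S, ∀ y ∈ S, x * y = y * x := by
    apply EXA_comm
    intro x hx y hy
    rcases hx with rfl | hx
    · rcases hy with rfl | hy
      · rfl
      · exact (hac y hy).symm
    · rcases hy with rfl | hy
      · exact hac x hx
      · exact hR x hx y hy
  have haS : a ∈ S := Subgroup.subset_closure (Set.mem_insert _ _)
  have hRS : ∀ u ∈ R, u ∈ S := fun u hu => Subgroup.subset_closure (Set.mem_insert_of_mem _ hu)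
  obtain ⟨hn, hexp⟩ := hQRS G ⊤ S le_top ψ hψ
  obtain ⟨hfin, hB⟩ := hB2 G S
  have hne : ∀ μ ∈ IrrOn S, μ 1 ≠ 0 := by
    intro μ hμ
    obtain ⟨n, hn0, hn1, -⟩ := (hB μ hμ).1
    rw [hn1]
    exact_mod_cast hn0.ne'
  have hq : ∀ s ∈ S, ∀ μ ∈ IrrOn S, ∀ v, μ (s * v) * μ 1 = μ s * μ v := by
    intro s hs μ hμ v
    exact (hQCE G S s hs (fun l hl => hSc l hl s hs) μ hμ).1 v
  have hLC : ∀ μ ∈ IrrOn S, LC R (fun u => μ u⁻¹ / μ 1) := by
    intro μ hμ
    constructor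
    · show μ (1 : G)⁻¹ / μ 1 = 1
      rw [inv_one]
      exact div_self (hne μ hμ)
    · intro u hu v hv
      show μ (u * v)⁻¹ / μ 1 = μ u⁻¹ / μ 1 * (μ v⁻¹ / μ 1)
      have h1 := hq v⁻¹ (S.inv_mem (hRS v hv)) μ hμ u⁻¹
      have h0 := hne μ hμ
      rw [mul_inv_rev]
      field_simp
      rw [h1]
      ring
  have hval : ∀ μ ∈ IrrOn S, ∀ u, μ (a * u⁻¹) = μ a * (μ u⁻¹ / μ 1) := by
    intro μ hμ u
    have h1 := hq a haS μ hμ u⁻¹
    have h0 := hne μ hμ
    field_simp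
    exact h1
  have hfR : ((R : Set G)).Finite := Set.toFinite _
  have hkey : (∑ᶠ u ∈ (R : Set G), F u * ψ (a * u⁻¹)) / (Nat.card R : ℂ) =
      ∑ μ ∈ hfin.toFinset, (mt S ψ μ * μ a) * ((∑ᶠ u ∈ (R : Set G), μ u⁻¹ / μ 1 * F u) / (Nat.card R : ℂ)) := by
    rw [finsum_mem_eq_finite_toFinset_sum _ hfR]
    have e1 : ∀ u ∈ hfR.toFinset, F u * ψ (a * u⁻¹) = ∑ μ ∈ hfin.toFinset, (mt S ψ μ * μ a) * (μ u⁻¹ / μ 1 * F u) := by
      intro u hu
      have hu' : u ∈ R := by simpa using hu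
      rw [hexp (a * u⁻¹) (S.mul_mem haS (S.inv_mem (hRS u hu'))), finsum_mem_eq_finite_toFinset_sum _ hfin, Finset.mul_sum]
      refine Finset.sum_congr rfl fun μ hμ => ?_
      have hμ' : μ ∈ IrrOn S := by simpa using hμ
      rw [hval μ hμ' u]
      ring
    rw [Finset.sum_congr rfl e1, Finset.sum_comm, Finset.sum_div]
    refine Finset.sum_congr rfl fun μ _ => ?_
    rw [finsum_mem_eq_finite_toFinset_sum _ hfR, ← Finset.mul_sum, mul_div_assoc]
  rw [hkey]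
  refine IntAt.sum hS _ fun μ hμ => ?_
  have hμ' : μ ∈ IrrOn S := by simpa using hμ
  obtain ⟨n, hn'⟩ := hn μ hμ'
  refine IntAt.mul hS (IntAt.mul hS ?_ ?_) (hF _ (hLC μ hμ'))
  · rw [hn']
    exact IntAt.natCast hS n
  · exact IntAt.of_isIntegral hS ((hB μ hμ').2.2.1 a)

end Pool.Agent.BR
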